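import Pool.Agent.Helper32.OIP.Goals

/-! # OIP (MP_fc0446_an), packet O9: the structure map is not constant -/

namespace Pool.Agent.Helper51.OIP

open MeasureTheory Pool.Agent.Helper32.OIP Pool.Agent.Helper58.Orb

theorem o9 : GoalO9 := by
  intro hO1 A B _ _ _ _ S S' D L _ _ _ T T' e₀ Ψ hΨ hmix
  rintro ⟨f, hf⟩
  have h1 := (hO1 B A S' S L D T' T e₀.symm Ψ hΨ).2.1
  have h2 : ∀ᵐ y ∂(bern B), ∀ l, Ψ (shift (T'.dir l) y) = shift (T.dir (f l)) (Ψ y) := by
    filter_upwards [h1, hf] with y a b l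
    rw [a l, b]
  have h3 := ae_forall_shift h2
  have h4 := hΨ.measurePreserving.quasiMeasurePreserving.ae (ae_free (G := A))
  obtain ⟨y, hy3, hy4⟩ := (h3.and h4).exists
  have key : ∀ l, f (T'.inv l) = T.inv (f l) := by
    intro l
    have a1 := hy3 1 l
    rw [shift_one] at a1
    have a2 := hy3 (T'.dir l) (T'.inv l)
    rw [T'.dir_inv, shift_inv_shift, a1, ← shift_mul] at a2
    have a3 := hy4 _ a2.symm
    apply T.inj
    rw [T.dir_inv]
    exact eq_inv_of_mul_eq_one_left a3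
  obtain ⟨s⟩ := ‹Nonempty D›
  have hs := key (f.symm s)
  rw [Equiv.apply_symm_apply] at hs
  rcases hmix s (f.symm s) with ⟨c1, c2⟩ | ⟨c1, c2⟩
  · apply c2
    apply f.injective
    rw [hs, c1, Equiv.apply_symm_apply]
  · apply c1
    rw [← hs, c2, Equiv.apply_symm_apply]

end Pool.Agent.Helper51.OIP
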